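import Pool.Agent.R284.RC.Stm

set_option autoImplicit false
open MeasureTheory Set Filter Topology
open scoped ENNReal NNReal

namespace Pool.Agent.R764.RC

open Pool.Agent.R284.RC

theorem kr_meas (n : ℕ) (p : ℝ) : Measurable (fun z : E n × E n => kr p z.1 z.2) := by
  unfold kr
  by_cases hp : p = 0
  · simp only [hp, if_true]
    exact (Real.measurable_log.comp measurable_dist).neg
  · simp only [hp, if_false]
    exact measurable_dist.pow_const _

theorem kr_meas1 (n : ℕ) (p : ℝ) (x : E n) : Measurable (fun y : E n => kr p x y) := by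
  have hd : Measurable (fun y : E n => dist x y) := (continuous_const.dist continuous_id).measurable
  unfold kr
  by_cases hp : p = 0
  · simp only [hp, if_true]
    exact (Real.measurable_log.comp hd).neg
  · simp only [hp, if_false]
    exact hd.pow_const _

theorem real_bound {p q d : ℝ} (hp : 0 ≤ p) (hpq : p < q) (hd : 0 < d) :
    |if p = 0 then -Real.log d else d ^ (-p)| ≤ (1 + d) + (1 + 1 / q) * d ^ (-q) := by
  have hq : 0 < q := lt_of_le_of_lt hp hpq
  have h0 : 0 < d ^ (-q) := Real.rpow_pos_of_pos hd _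
  have h1q : 0 < 1 / q := by positivity
  by_cases h : p = 0
  · simp only [h, if_true, abs_neg]
    rcases le_total d 1 with hd1 | hd1
    · rw [abs_of_nonpos (Real.log_nonpos hd.le hd1)]
      have h2 : Real.log d⁻¹ ≤ (d⁻¹) ^ q / q := Real.log_le_rpow_div (by positivity) hq
      rw [Real.log_inv, Real.inv_rpow hd.le, ← Real.rpow_neg hd.le] at h2
      have h3 : d ^ (-q) / q = 1 / q * d ^ (-q) := by ring
      nlinarith
    · rw [abs_of_nonneg (Real.log_nonneg hd1)]
      have h2 := Real.log_le_sub_one_of_pos hd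
      nlinarith
  · simp only [h, if_false]
    have hp' : 0 < p := lt_of_le_of_ne hp (Ne.symm h)
    rw [abs_of_pos (Real.rpow_pos_of_pos hd _)]
    rcases le_total d 1 with hd1 | hd1
    · have h2 : d ^ (-p) ≤ d ^ (-q) :=
        Real.rpow_le_rpow_of_exponent_ge hd hd1 (by linarith)
      nlinarith
    · have h2 : d ^ (-p) ≤ 1 := Real.rpow_le_one_of_one_le_of_nonpos hd1 (by linarith)
      nlinarith

theorem ke_bound {n : ℕ} {p q : ℝ} (hp : 0 ≤ p) (hpq : p < q) (x y : E n) :
    ke p x y ≤ ENNReal.ofReal (1 + dist x y) +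
      ENNReal.ofReal (1 + 1 / q) * (edist x y) ^ (-q) := by
  have hq : 0 < q := lt_of_le_of_lt hp hpq
  have h1q : 0 < 1 / q := by positivity
  unfold ke
  by_cases hxy : x = y
  · subst hxy
    rw [edist_self, ENNReal.zero_rpow_of_neg (by linarith), ENNReal.mul_top, add_top]
    · exact le_top
    · rw [ne_eq, ENNReal.ofReal_eq_zero, not_le]
      linarith
  · rw [if_neg hxy]
    have hd : 0 < dist x y := dist_pos.2 hxy
    have h1 : ENNReal.ofReal |kr p x y| ≤
        ENNReal.ofReal ((1 + dist x y) + (1 + 1 / q) * dist x y ^ (-q)) := by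
      apply ENNReal.ofReal_le_ofReal
      exact real_bound hp hpq hd
    refine h1.trans ?_
    rw [ENNReal.ofReal_add (by positivity) (by positivity), ENNReal.ofReal_mul (by positivity),
      edist_dist, ENNReal.ofReal_rpow_of_pos hd]

theorem enorm_le_ke {n : ℕ} (p : ℝ) (x y : E n) : ‖kr p x y‖ₑ ≤ ke p x y := by
  unfold ke
  by_cases hxy : x = y
  · rw [if_pos hxy]; exact le_top
  · rw [if_neg hxy, Real.enorm_eq_ofReal_abs]

theorem int_proof : S_int := by
  intro n p q hp hpq σ τ hσ hτ hBP hBσ hBτ
  have hq : 0 < q := lt_of_le_of_lt hp hpq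
  obtain ⟨C, hC⟩ := hBP
  obtain ⟨R, hR⟩ := hBτ
  obtain ⟨R', hR'⟩ := hBσ
  have hae : ∀ᵐ y ∂τ, dist y 0 ≤ R := by
    rw [ae_iff]
    exact hR
  have hae' : ∀ᵐ x ∂σ, dist x 0 ≤ R' := by
    rw [ae_iff]
    exact hR'
  have hkm : ∀ x : E n, Measurable (fun y => kr p x y) := kr_meas1 n p
  -- the basic bound
  have hb : ∀ x : E n, ∫⁻ y, ke p x y ∂τ ≤ ENNReal.ofReal (1 + (dist x 0 + R)) * τ univ +
      ENNReal.ofReal (1 + 1 / q) * C := by
    intro x
    calc ∫⁻ y, ke p x y ∂τ ≤ ∫⁻ y, (ENNReal.ofReal (1 + (dist x 0 + R)) +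
          ENNReal.ofReal (1 + 1 / q) * (edist x y) ^ (-q)) ∂τ := by
          apply lintegral_mono_ae
          filter_upwards [hae] with y hy
          refine (ke_bound hp hpq x y).trans ?_
          gcongr
          have := dist_triangle_right x y 0
          linarith
      _ = ENNReal.ofReal (1 + (dist x 0 + R)) * τ univ +
          ENNReal.ofReal (1 + 1 / q) * Pot q τ x := by
          rw [lintegral_add_left measurable_const, lintegral_const, lintegral_const_mul]
          · rfl
          · exact (measurable_const.edist measurable_id).pow_const _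
      _ ≤ _ := by
          gcongr
          exact hC x
  have hfin : FinEn p σ τ := by
    unfold FinEn
    calc ∫⁻ x, ∫⁻ y, ke p x y ∂τ ∂σ ≤ ∫⁻ _, (ENNReal.ofReal (1 + (R' + R)) * τ univ +
          ENNReal.ofReal (1 + 1 / q) * C) ∂σ := by
          apply lintegral_mono_ae
          filter_upwards [hae'] with x hx
          refine (hb x).trans ?_
          gcongr
      _ < ⊤ := by
          rw [lintegral_const]
          exact ENNReal.mul_lt_top (ENNReal.add_lt_top.2
            ⟨ENNReal.mul_lt_top ENNReal.ofReal_lt_top (measure_lt_top τ univ),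
              ENNReal.mul_lt_top ENNReal.ofReal_lt_top ENNReal.coe_lt_top⟩) (measure_lt_top σ univ)
  refine ⟨⟨(kr_meas n p).aestronglyMeasurable, ?_⟩, ?_, hfin⟩
  · unfold HasFiniteIntegral
    rw [lintegral_prod _ (kr_meas n p).enorm.aemeasurable]
    refine lt_of_le_of_lt ?_ hfin
    exact lintegral_mono fun x => lintegral_mono fun y => enorm_le_ke p x y
  · intro x
    refine ⟨(hkm x).aestronglyMeasurable, ?_⟩
    unfold HasFiniteIntegral
    refine lt_of_le_of_lt (lintegral_mono fun y => enorm_le_ke p x y) ?_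
    refine lt_of_le_of_lt (hb x) ?_
    exact ENNReal.add_lt_top.2
            ⟨ENNReal.mul_lt_top ENNReal.ofReal_lt_top (measure_lt_top τ univ),
              ENNReal.mul_lt_top ENNReal.ofReal_lt_top ENNReal.coe_lt_top⟩

end Pool.Agent.R764.RC
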